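import Mathlib
import Pool.Agent.Helper58.FX.Defs

set_option autoImplicit false
open Filter Topology
open Helper58.FX

/-! Elementary facts about densities of sets of pairs of natural numbers (FX-7). -/

namespace Pool.Agent.Helper88.FX

lemma cnt_nonneg (Q : Set (ℕ × ℕ)) (N : ℕ) : 0 ≤ cnt Q N := Nat.cast_nonneg _

lemma cnt_mono {Q Q' : Set (ℕ × ℕ)} (h : Q ⊆ Q') (N : ℕ) : cnt Q N ≤ cnt Q' N := by
  classical
  unfold cnt
  refine Nat.cast_le.mpr (Finset.card_le_card ?_)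
  intro s hs
  rw [Finset.mem_filter] at hs ⊢
  exact ⟨hs.1, h hs.2⟩

lemma exists_finset (Q : Set (ℕ × ℕ)) (N : ℕ) :
    ∃ F : Finset (ℕ × ℕ), cnt Q N = (F.card : ℝ) ∧ ∀ s, s ∈ F ↔ s ∈ box N ∧ s ∈ Q := by
  classical
  unfold cnt
  exact ⟨_, rfl, fun s => Finset.mem_filter⟩

lemma cnt_union_le (Q Q' : Set (ℕ × ℕ)) (N : ℕ) : cnt (Q ∪ Q') N ≤ cnt Q N + cnt Q' N := by
  classical
  obtain ⟨F, hF, hF'⟩ := exists_finset Q N
  obtain ⟨G, hG, hG'⟩ := exists_finset Q' N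
  obtain ⟨K, hK, hK'⟩ := exists_finset (Q ∪ Q') N
  rw [hF, hG, hK, ← Nat.cast_add]
  refine Nat.cast_le.mpr (le_trans (Finset.card_le_card ?_) (Finset.card_union_le F G))
  intro s hs
  obtain ⟨h1, h2⟩ := (hK' s).mp hs
  rcases h2 with h | h
  · exact Finset.mem_union_left _ ((hF' s).mpr ⟨h1, h⟩)
  · exact Finset.mem_union_right _ ((hG' s).mpr ⟨h1, h⟩)

lemma cnt_diff_ge (Q Q' : Set (ℕ × ℕ)) (N : ℕ) : cnt Q N - cnt Q' N ≤ cnt (Q \ Q') N := by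
  have h : cnt Q N ≤ cnt ((Q \ Q') ∪ Q') N :=
    cnt_mono (fun s hs => by
      by_cases h' : s ∈ Q'
      · exact Or.inr h'
      · exact Or.inl ⟨hs, h'⟩) N
  have h2 := cnt_union_le (Q \ Q') Q' N
  linarith

lemma mul_cnt_le_sum {a : ℕ × ℕ → ℝ} (ha : ∀ s, 0 ≤ a s) {η : ℝ} {Q : Set (ℕ × ℕ)}
    (hQ : ∀ s ∈ Q, η ≤ a s) (N : ℕ) : η * cnt Q N ≤ ∑ s ∈ box N, a s := by
  classical
  unfold cnt
  calc η * (((box N).filter (fun s => s ∈ Q)).card : ℝ)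
      = ∑ s ∈ (box N).filter (fun s => s ∈ Q), η := by
        rw [Finset.sum_const, nsmul_eq_mul, mul_comm]
    _ ≤ ∑ s ∈ (box N).filter (fun s => s ∈ Q), a s :=
        Finset.sum_le_sum (fun s hs => hQ s (Finset.mem_filter.mp hs).2)
    _ ≤ ∑ s ∈ box N, a s :=
        Finset.sum_le_sum_of_subset_of_nonneg (Finset.filter_subset _ _) (fun s _ _ => ha s)

lemma sum_eq_mean (a : ℕ × ℕ → ℝ) {N : ℕ} (hN : 1 ≤ N) :
    ∑ s ∈ box N, a s = mean a N * (N : ℝ) ^ 2 := by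
  have h : (0 : ℝ) < (N : ℝ) ^ 2 := by
    have : (0 : ℝ) < (N : ℝ) := by exact_mod_cast hN
    positivity
  unfold mean
  field_simp

/-- FX-7 -/
theorem mean_pick {a : ℕ × ℕ → ℝ} (ha : ∀ s, 0 ≤ a s) (h : Tendsto (mean a) atTop (𝓝 0))
    {Q : Set (ℕ × ℕ)} {d : ℝ} (hd : 0 < d) (hQ : Fre Q d) {η : ℝ} (hη : 0 < η) :
    ∃ s ∈ Q, a s < η := by
  by_contra hcon
  have hcon' : ∀ s ∈ Q, η ≤ a s := by
    intro s hs
    by_contra hlt
    exact hcon ⟨s, hs, not_le.mp hlt⟩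
  have h1 : ∀ᶠ N : ℕ in atTop, mean a N < η * d :=
    h.eventually_lt_const (by positivity)
  have h2 : ∀ᶠ N : ℕ in atTop, 1 ≤ N := eventually_ge_atTop 1
  obtain ⟨N, hN, hN1, hN2⟩ := (hQ.and_eventually (h1.and h2)).exists
  have hpos : (0 : ℝ) < (N : ℝ) ^ 2 := by
    have : (0 : ℝ) < (N : ℝ) := by exact_mod_cast hN2
    positivity
  have h3 := mul_cnt_le_sum ha hcon' N
  rw [sum_eq_mean a hN2] at h3
  have h4 : η * (d * (N : ℝ) ^ 2) ≤ η * cnt Q N := mul_le_mul_of_nonneg_left hN hη.le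
  have h5 : mean a N * (N : ℝ) ^ 2 < η * d * (N : ℝ) ^ 2 := mul_lt_mul_of_pos_right hN1 hpos
  nlinarith

/-- FX-7 -/
theorem up_of_mean {a : ℕ × ℕ → ℝ} (ha : ∀ s, 0 ≤ a s) (h : Tendsto (mean a) atTop (𝓝 0))
    {η ε : ℝ} (hη : 0 < η) (hε : 0 < ε) : Up {s | η ≤ a s} ε := by
  have h1 : ∀ᶠ N : ℕ in atTop, mean a N < η * ε :=
    h.eventually_lt_const (by positivity)
  filter_upwards [h1, eventually_ge_atTop 1] with N hN1 hN2
  have hpos : (0 : ℝ) < (N : ℝ) ^ 2 := by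
    have : (0 : ℝ) < (N : ℝ) := by exact_mod_cast hN2
    positivity
  have h3 := mul_cnt_le_sum ha (Q := {s | η ≤ a s}) (fun s hs => hs) N
  rw [sum_eq_mean a hN2] at h3
  have h5 : mean a N * (N : ℝ) ^ 2 ≤ η * ε * (N : ℝ) ^ 2 :=
    (mul_lt_mul_of_pos_right hN1 hpos).le
  have h6 : η * cnt {s | η ≤ a s} N ≤ η * (ε * (N : ℝ) ^ 2) := by
    rw [← mul_assoc]
    exact h3.trans h5
  exact le_of_mul_le_mul_left h6 hη

/-- FX-7 -/
theorem up_mono {Q Q' : Set (ℕ × ℕ)} {ε ε' : ℝ} (h : Q ⊆ Q') (hε : ε' ≤ ε) (hQ : Up Q' ε') :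
    Up Q ε := by
  filter_upwards [hQ] with N hN
  exact (cnt_mono h N).trans (hN.trans (mul_le_mul_of_nonneg_right hε (sq_nonneg _)))

/-- FX-7 -/
theorem up_union {Q Q' : Set (ℕ × ℕ)} {ε ε' : ℝ} (hQ : Up Q ε) (hQ' : Up Q' ε') :
    Up (Q ∪ Q') (ε + ε') := by
  filter_upwards [hQ, hQ'] with N h1 h2
  rw [add_mul]
  exact (cnt_union_le Q Q' N).trans (add_le_add h1 h2)

lemma up_empty : Up ∅ 0 := by
  filter_upwards with N
  classical
  unfold cnt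
  simp

/-- FX-7 -/
theorem up_biUnion {ι : Type*} (F : Finset ι) (Q : ι → Set (ℕ × ℕ)) (ε : ι → ℝ)
    (h : ∀ i ∈ F, Up (Q i) (ε i)) : Up (⋃ i ∈ F, Q i) (∑ i ∈ F, ε i) := by
  classical
  induction F using Finset.induction_on with
  | empty => simpa using up_empty
  | insert i F hi ih =>
    rw [Finset.sum_insert hi, Finset.set_biUnion_insert]
    exact up_union (h i (Finset.mem_insert_self i F))
      (ih (fun j hj => h j (Finset.mem_insert_of_mem hj)))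

/-- FX-7 -/
theorem up_double {Q : Set (ℕ × ℕ)} {ε : ℝ} (hQ : Up Q ε) :
    Up {s : ℕ × ℕ | (s.1 + s.1, s.2 + s.2) ∈ Q} (4 * ε) := by
  classical
  have hten : Tendsto (fun N : ℕ => N + N) atTop atTop :=
    tendsto_atTop_mono (fun N => Nat.le_add_left N N) tendsto_id
  have h1 := hten.eventually hQ
  filter_upwards [h1] with N hN
  have h2 : cnt {s : ℕ × ℕ | (s.1 + s.1, s.2 + s.2) ∈ Q} N ≤ cnt Q (N + N) := by
    unfold cnt
    refine Nat.cast_le.mpr ?_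
    refine Finset.card_le_card_of_injOn (fun s => (s.1 + s.1, s.2 + s.2)) ?_ ?_
    · intro s hs
      have hs' := Finset.mem_filter.mp (Finset.mem_coe.mp hs)
      have hb := Finset.mem_product.mp hs'.1
      have hb1 := Finset.mem_range.mp hb.1
      have hb2 := Finset.mem_range.mp hb.2
      refine Finset.mem_coe.mpr (Finset.mem_filter.mpr ⟨?_, hs'.2⟩)
      refine Finset.mem_product.mpr ⟨Finset.mem_range.mpr ?_, Finset.mem_range.mpr ?_⟩
      · show s.1 + s.1 < N + N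
        omega
      · show s.2 + s.2 < N + N
        omega
    · intro s _ t _ hst
      have h3 := congrArg Prod.fst hst
      have h4 := congrArg Prod.snd hst
      simp only at h3 h4
      ext
      · omega
      · omega
  refine h2.trans (hN.trans (le_of_eq ?_))
  push_cast
  ring

/-- FX-7 -/
theorem low_diff {Q Q' : Set (ℕ × ℕ)} {d ε : ℝ} (hQ : Low Q d) (hQ' : Up Q' ε) :
    Low (Q \ Q') (d - ε) := by
  filter_upwards [hQ, hQ'] with N h1 h2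
  rw [sub_mul]
  exact (sub_le_sub h1 h2).trans (cnt_diff_ge Q Q' N)

/-- FX-7 -/
theorem up_finite {Q : Set (ℕ × ℕ)} (hQ : Q.Finite) {ε : ℝ} (hε : 0 < ε) : Up Q ε := by
  classical
  obtain ⟨K, hK⟩ := exists_nat_gt ((hQ.toFinset.card : ℝ) / ε)
  filter_upwards [eventually_ge_atTop (max K 1)] with N hN
  have hN1 : 1 ≤ N := (le_max_right K 1).trans hN
  have hNK : K ≤ N := (le_max_left K 1).trans hN
  have h1 : cnt Q N ≤ (hQ.toFinset.card : ℝ) := by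
    unfold cnt
    refine Nat.cast_le.mpr (Finset.card_le_card ?_)
    intro s hs
    exact hQ.mem_toFinset.mpr (Finset.mem_filter.mp hs).2
  have h2 : (hQ.toFinset.card : ℝ) < ε * K := by
    rw [div_lt_iff₀ hε] at hK
    linarith
  have h3 : (K : ℝ) ≤ (N : ℝ) ^ 2 := by
    have hN1' : (1 : ℝ) ≤ (N : ℝ) := by exact_mod_cast hN1
    have hNK' : (K : ℝ) ≤ (N : ℝ) := by exact_mod_cast hNK
    nlinarith
  exact h1.trans (h2.le.trans (mul_le_mul_of_nonneg_left h3 hε.le))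

/-- FX-7 -/
theorem pigeon {ι : Type*} {C : Set ι} (hC : C.Finite) {Q : Set (ℕ × ℕ)} (f : ℕ × ℕ → ι)
    (hf : ∀ s ∈ Q, f s ∈ C) {d : ℝ} (hd : 0 < d) (hQ : Low Q d) :
    ∃ c ∈ C, ∃ d' : ℝ, 0 < d' ∧ Fre {s | s ∈ Q ∧ f s = c} d' := by
  by_contra hcon
  set m : ℕ := hC.toFinset.card with hm
  have hd' : 0 < d / (2 * ((m : ℝ) + 1)) := by positivity
  have h1 : ∀ c ∈ hC.toFinset, Up {s | s ∈ Q ∧ f s = c} (d / (2 * ((m : ℝ) + 1))) := by
    intro c hc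
    have hnot : ¬ Fre {s | s ∈ Q ∧ f s = c} (d / (2 * ((m : ℝ) + 1))) := fun hF =>
      hcon ⟨c, hC.mem_toFinset.mp hc, _, hd', hF⟩
    unfold Fre at hnot
    rw [not_frequently] at hnot
    filter_upwards [hnot] with N hN
    exact (not_le.mp hN).le
  have h2 := up_biUnion hC.toFinset (fun c => {s | s ∈ Q ∧ f s = c})
    (fun _ => d / (2 * ((m : ℝ) + 1))) h1
  rw [Finset.sum_const, nsmul_eq_mul, ← hm] at h2
  have h3 : Q ⊆ ⋃ c ∈ hC.toFinset, {s | s ∈ Q ∧ f s = c} := by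
    intro s hs
    rw [Set.mem_iUnion₂]
    exact ⟨f s, hC.mem_toFinset.mpr (hf s hs), hs, rfl⟩
  obtain ⟨N, h4, h5, h6⟩ := (h2.and (hQ.and (eventually_ge_atTop 1))).exists
  have hpos : (0 : ℝ) < (N : ℝ) ^ 2 := by
    have : (0 : ℝ) < (N : ℝ) := by exact_mod_cast h6
    positivity
  have h7 : d * (N : ℝ) ^ 2 ≤ (m : ℝ) * (d / (2 * ((m : ℝ) + 1))) * (N : ℝ) ^ 2 :=
    h5.trans ((cnt_mono h3 N).trans h4)
  have h8 : d ≤ (m : ℝ) * (d / (2 * ((m : ℝ) + 1))) := le_of_mul_le_mul_right h7 hpos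
  have h9 : (m : ℝ) * (d / (2 * ((m : ℝ) + 1))) ≤ d / 2 := by
    rw [mul_div_assoc', div_le_div_iff₀ (by positivity) (by norm_num)]
    have : (0 : ℝ) ≤ (m : ℝ) := Nat.cast_nonneg _
    nlinarith
  linarith

end Pool.Agent.Helper88.FX
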