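import Mathlib
import Pool.Agent.Helper58.FX.Defs

set_option autoImplicit false
open MeasureTheory Filter Topology
open scoped ComplexConjugate ENNReal
open Helper58.FX Helper91.TTT

/-! Wiener's lemma with atoms (CV-2). -/

namespace Pool.Agent.Helper88.FX

variable {ν : Measure Helper58.FX.Tor} [IsProbabilityMeasure ν]

lemma inner_eq (L : ℕ) (y : Helper58.FX.Tor) : ∫ x, DD L (x - y) ∂ν =
    (1 / (L : ℂ)) * ∑ j ∈ Finset.range L, ft ν j * conj (fourier (j : ℤ) y) := by
  unfold DD
  rw [integral_const_mul, integral_finsetSum _ (fun i _ => integrable_cont ν (by fun_prop))]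
  congr 1
  refine Finset.sum_congr rfl (fun j _ => ?_)
  have h3 : ∀ x : Helper58.FX.Tor, (fourier (j : ℤ) (x - y) : ℂ) =
      fourier (j : ℤ) x * conj (fourier (j : ℤ) y) := by
    intro x
    rw [← fourier_neg]
    simp only [fourier_apply]
    rw [smul_sub, sub_eq_add_neg, AddCircle.toCircle_add, Circle.coe_mul, neg_smul]
  simp only [h3]
  rw [integral_mul_const]
  rfl

lemma double_eq (L : ℕ) : ∫ y, ∫ x, DD L (x - y) ∂ν ∂ν =
    (((∑ n ∈ Finset.range L, ‖ft ν n‖ ^ 2) / (L : ℝ) : ℝ) : ℂ) := by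
  simp only [inner_eq]
  rw [integral_const_mul, integral_finsetSum _ (fun i _ => integrable_cont ν (by fun_prop))]
  push_cast
  rw [div_eq_inv_mul (∑ x ∈ Finset.range L, ((‖ft ν x‖ : ℂ) ^ 2)), one_div]
  congr 1
  refine Finset.sum_congr rfl (fun j _ => ?_)
  rw [integral_const_mul, integral_conj, ← Complex.mul_conj']
  rfl

lemma inner_tendsto (y : Helper58.FX.Tor) :
    Tendsto (fun L : ℕ => ∫ x, DD L (x - y) ∂ν) atTop (𝓝 ((ν.real {y} : ℝ) : ℂ)) := by
  have h1 : Tendsto (fun L : ℕ => ∫ x, DD L (x - y) ∂ν) atTop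
      (𝓝 (∫ x, Set.indicator ({0} : Set Helper58.FX.Tor) (fun _ => (1 : ℂ)) (x - y) ∂ν)) := by
    refine tendsto_integral_of_dominated_convergence (fun _ => 1) ?_ (integrable_const _) ?_ ?_
    · intro L
      exact ((continuous_DD L).comp (continuous_id.sub continuous_const)).aestronglyMeasurable
    · intro L
      exact Filter.Eventually.of_forall (fun x => DD_norm_le _ _)
    · exact Filter.Eventually.of_forall (fun x => DD_tendsto (x - y))
  have h2 : ∫ x, Set.indicator ({0} : Set Helper58.FX.Tor) (fun _ => (1 : ℂ)) (x - y) ∂ν =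
      ((ν.real {y} : ℝ) : ℂ) := by
    have h3 : ∀ x : Helper58.FX.Tor,
        Set.indicator ({0} : Set Helper58.FX.Tor) (fun _ => (1 : ℂ)) (x - y) =
        Set.indicator ({y} : Set Helper58.FX.Tor) (fun _ => (1 : ℂ)) x := by
      intro x
      by_cases hx : x = y
      · subst hx
        simp
      · rw [Set.indicator_of_notMem (by simpa [sub_eq_zero] using hx),
          Set.indicator_of_notMem (by simpa using hx)]
    simp only [h3]
    rw [integral_indicator (measurableSet_singleton y)]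
    simp [Measure.real]
  rw [← h2]
  exact h1

lemma inner_norm_le (L : ℕ) (y : Helper58.FX.Tor) : ‖∫ x, DD L (x - y) ∂ν‖ ≤ 1 := by
  have h := norm_integral_le_of_norm_le_const (μ := ν) (f := fun x => DD L (x - y)) (C := 1)
    (Filter.Eventually.of_forall (fun x => DD_norm_le _ _))
  simpa using h

lemma inner_cont (L : ℕ) : Continuous (fun y : Helper58.FX.Tor => ∫ x, DD L (x - y) ∂ν) := by
  simp only [inner_eq]
  fun_prop

lemma integrable_atom : Integrable (fun y : Helper58.FX.Tor => ν.real {y}) ν := by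
  have h1 : AEStronglyMeasurable (fun y : Helper58.FX.Tor => ((ν.real {y} : ℝ) : ℂ)) ν :=
    aestronglyMeasurable_of_tendsto_ae atTop (fun L : ℕ => (inner_cont L).aestronglyMeasurable)
      (Filter.Eventually.of_forall (fun y => inner_tendsto y))
  have h2 : Integrable (fun y : Helper58.FX.Tor => ((ν.real {y} : ℝ) : ℂ)) ν := by
    refine Integrable.of_bound h1 1 (Filter.Eventually.of_forall (fun y => ?_))
    rw [Complex.norm_real, Real.norm_eq_abs, abs_of_nonneg measureReal_nonneg]
    exact measureReal_le_one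
  exact h2.re

/-- Wiener's lemma with atoms. -/
theorem wiener_tendsto :
    Tendsto (fun L : ℕ => (∑ n ∈ Finset.range L, ‖ft ν n‖ ^ 2) / (L : ℝ)) atTop
      (𝓝 (∫ y, ν.real {y} ∂ν)) := by
  have h4 : Tendsto (fun L : ℕ => ∫ y, ∫ x, DD L (x - y) ∂ν ∂ν) atTop
      (𝓝 (∫ y, ((ν.real {y} : ℝ) : ℂ) ∂ν)) := by
    refine tendsto_integral_of_dominated_convergence (fun _ => 1) ?_ (integrable_const _) ?_ ?_
    · intro L
      exact (inner_cont L).aestronglyMeasurable
    · intro L
      exact Filter.Eventually.of_forall (fun y => inner_norm_le L y)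
    · exact Filter.Eventually.of_forall (fun y => inner_tendsto y)
  simp only [double_eq] at h4
  rw [integral_complex_ofReal] at h4
  exact (Complex.continuous_re.tendsto _).comp h4

/-- CV-2 -/
theorem wiener_le {ν : Measure Helper58.FX.Tor} [IsProbabilityMeasure ν] {κ : ℝ}
    (hκ : ∀ x, ν.real {x} ≤ κ) {ε : ℝ} (hε : 0 < ε) :
    ∀ᶠ L : ℕ in atTop, ∑ n ∈ Finset.range L, ‖ft ν n‖ ^ 2 ≤ (κ + ε) * L := by
  have h1 : ∫ y, ν.real {y} ∂ν ≤ κ := by
    calc ∫ y, ν.real {y} ∂ν ≤ ∫ _y : Helper58.FX.Tor, κ ∂ν :=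
          integral_mono integrable_atom (integrable_const _) (fun y => hκ y)
      _ = κ := by simp
  filter_upwards [(wiener_tendsto (ν := ν)).eventually_lt_const (show _ < κ + ε by linarith),
    eventually_gt_atTop 0] with L hL hL0
  have hL1 : (0 : ℝ) < L := by exact_mod_cast hL0
  rw [div_lt_iff₀ hL1] at hL
  exact hL.le

/-- CV-2 -/
theorem nonatomic_of_wiener {ν : Measure Helper58.FX.Tor} [IsProbabilityMeasure ν]
    (h : Tendsto (fun L : ℕ => (∑ n ∈ Finset.range L, ‖ft ν n‖ ^ 2) / (L : ℝ)) atTop (𝓝 0)) :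
    ∀ x, ν {x} = 0 := by
  intro x
  have h0 : ∫ y, ν.real {y} ∂ν = 0 := tendsto_nhds_unique wiener_tendsto h
  have h1 : (fun y : Helper58.FX.Tor => ν.real {y}) =ᵐ[ν] 0 :=
    (integral_eq_zero_iff_of_nonneg (fun y => measureReal_nonneg) integrable_atom).mp h0
  by_contra hx
  have h2 : ν {y | ¬ ν.real {y} = (0 : Helper58.FX.Tor → ℝ) y} = 0 := ae_iff.mp h1
  have h3 : ({x} : Set Helper58.FX.Tor) ⊆ {y | ¬ ν.real {y} = (0 : Helper58.FX.Tor → ℝ) y} := by
    intro y hy
    have hy' : y = x := hy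
    subst hy'
    show ¬ ν.real {y} = 0
    rw [measureReal_eq_zero_iff]
    exact hx
  exact hx (measure_mono_null h3 h2)

end Pool.Agent.Helper88.FX
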